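import Pool.Agent.Helper66x.ST.Core
import Pool.Agent.N524.Szem
import Pool.Agent.Y843.HS.Top

/-!
# Rich sets of times: intervals, sifted sets, primes (helper66)
-/

set_option autoImplicit false

open Finset

namespace Pool.Agent.Helper66x.ST

open Pool.Agent.Y843.HS (Pr VV)

/-- Szemerédi's theorem -/
theorem rich_range {k : ℕ} (hk : 2 ≤ k) {δ : ℝ} (hδ : 0 < δ) :
    ∃ K₀ : ℕ, 1 ≤ K₀ ∧ ∀ K : ℕ, K₀ ≤ K → Rich (range K) (δ * K) k K := by
  classical
  obtain ⟨s0, hs0⟩ := Pool.Agent.N524.szem_abs (G := ℤ) (fun s => Finset.Icc (-(s : ℤ)) s) 2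
    (by norm_num) (fun s t hst => Finset.Icc_subset_Icc (by omega) (by omega))
    (fun v => ⟨v.natAbs, fun s u hu => by
      rw [Finset.mem_Icc] at hu ⊢
      rw [Nat.cast_add]
      omega⟩)
    (fun K => ⟨K, fun s hs => by
      rw [Int.card_Icc, Int.card_Icc]
      have h1 : ((s + K : ℕ) : ℤ) + 1 - (-((s + K : ℕ) : ℤ)) = ((2 * (s + K) + 1 : ℕ) : ℤ) := by
        push_cast; ring
      have h2 : (s : ℤ) + 1 - (-(s : ℤ)) = ((2 * s + 1 : ℕ) : ℤ) := by push_cast; ring
      rw [h1, h2, Int.toNat_natCast, Int.toNat_natCast]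
      have : 2 * (s + K) + 1 ≤ 2 * (2 * s + 1) := by omega
      exact_mod_cast this⟩)
    (fun s => ⟨0, by rw [Finset.mem_Icc]; omega⟩)
    ((Finset.range k).image (fun j : ℕ => (j : ℤ))) (δ / 3) (by positivity)
  refine ⟨max s0 1, le_max_right _ _, fun K hK S hS hc => ?_⟩
  have hK0 : s0 ≤ K := (le_max_left _ _).trans hK
  have hK1 : 1 ≤ K := (le_max_right _ _).trans hK
  obtain ⟨a, j, hj, h⟩ := hs0 K hK0 (S.image (fun t : ℕ => (t : ℤ))) (by
      intro z hz
      obtain ⟨t, ht, rfl⟩ := Finset.mem_image.1 hz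
      have := Finset.mem_range.1 (hS ht)
      rw [Finset.mem_Icc]
      omega) (by
      rw [Finset.card_image_of_injective _ Nat.cast_injective]
      refine le_trans ?_ hc
      rw [Int.card_Icc]
      have h2 : (K : ℤ) + 1 - (-(K : ℤ)) = ((2 * K + 1 : ℕ) : ℤ) := by push_cast; ring
      rw [h2, Int.toNat_natCast]
      have h3 : ((2 * K + 1 : ℕ) : ℝ) ≤ 3 * K := by
        have : 2 * K + 1 ≤ 3 * K := by omega
        exact_mod_cast this
      calc δ / 3 * ((2 * K + 1 : ℕ) : ℝ) ≤ δ / 3 * (3 * K) := by gcongr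
        _ = _ := by ring)
  have hm : ∀ i < k, ∃ t ∈ S, (t : ℤ) = a + (i : ℤ) * j := by
    intro i hi
    have h1 := h (i : ℤ) (Finset.mem_image.2 ⟨i, Finset.mem_range.2 hi, rfl⟩)
    obtain ⟨t, ht, h2⟩ := Finset.mem_image.1 h1
    refine ⟨t, ht, ?_⟩
    rw [h2, nsmul_eq_mul, mul_comm]
  obtain ⟨t0, ht0, h0⟩ := hm 0 (by omega)
  obtain ⟨t1, ht1, h1⟩ := hm 1 (by omega)
  have hr1 := Finset.mem_range.1 (hS ht1)
  refine ⟨t0, j, hj, ?_, fun i hi => ?_⟩
  · push_cast at h0 h1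
    omega
  · obtain ⟨t, ht, h2⟩ := hm i hi
    have h3 : t = t0 + i * j := by
      have : (t : ℤ) = ((t0 + i * j : ℕ) : ℤ) := by
        rw [h2]
        push_cast at h0 ⊢
        rw [h0]
        ring
      exact_mod_cast this
    rwa [← h3]

open Classical in
/-- the integers of `(A, A + X]` which avoid the classes `Z p` modulo the primes `p ≤ X ^ κ` -/
noncomputable def sifted (Z : ℕ → Finset ℕ) (κ : ℝ) (A X : ℕ) : Finset ℕ :=
  (Finset.Ioc A (A + X)).filter fun t =>
    ∀ p : ℕ, p.Prime → (p : ℝ) ≤ (X : ℝ) ^ κ → t % p ∉ Z p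

theorem rich_sifted (k m : ℕ) {κ δ : ℝ} (hκ : 0 < κ) (hδ : 0 < δ) :
    ∃ B X₀ : ℕ, ∀ X : ℕ, X₀ ≤ X → ∀ A : ℕ, ∀ Z : ℕ → Finset ℕ,
      (∀ p : ℕ, p.Prime → (p : ℝ) ≤ (X : ℝ) ^ κ →
        (Z p).card ≤ m ∧ (Z p).card < p ∧ ∀ c ∈ Z p, c < p) →
      Rich (sifted Z κ A X) (δ * X * VV Z 0 ⌊(X : ℝ) ^ κ⌋₊) k ⌊Real.log X ^ B⌋₊ := by
  classical
  obtain ⟨B, X₀, h⟩ := Pool.Agent.Y843.HS.fin k m κ δ hκ hδ
  refine ⟨B, X₀, fun X hX A Z hZ S hS hc => ?_⟩
  obtain ⟨a, d, h1, h2, h3⟩ := h X A hX Z hZ S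
    (fun t ht => (Finset.mem_filter.1 (hS ht)).1)
    (fun t ht => (Finset.mem_filter.1 (hS ht)).2) hc
  exact ⟨a, d, h1, Nat.le_floor h2, h3⟩

/-- the primes up to `X` -/
def primes (X : ℕ) : Finset ℕ := (Finset.range (X + 1)).filter Nat.Prime

theorem VV_le {y : ℕ} (hy : 2 ≤ y) : VV (fun _ => {0}) 0 y ≤ 1 / Real.log y := by
  classical
  unfold VV
  have hlog : 0 < Real.log y := Real.log_pos (by exact_mod_cast (by omega : 1 < y))
  have hPr : Pr 0 y = Nat.primesBelow (y + 1) := by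
    ext p
    simp only [Pr, Finset.mem_filter, Finset.mem_Ioc, Nat.primesBelow, Finset.mem_range]
    constructor
    · rintro ⟨⟨h1, h2⟩, h3⟩
      exact ⟨by omega, h3⟩
    · rintro ⟨h1, h2⟩
      exact ⟨⟨h2.pos, by omega⟩, h2⟩
  rw [hPr]
  simp only [Finset.card_singleton, Nat.cast_one]
  have hpos : ∀ p ∈ Nat.primesBelow (y + 1), 0 < 1 - 1 / (p : ℝ) := by
    intro p hp
    have := (Nat.prime_of_mem_primesBelow hp).two_le
    have h2 : (2 : ℝ) ≤ p := by exact_mod_cast this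
    have : 1 / (p : ℝ) ≤ 1 / 2 := by gcongr
    linarith
  have hharm : Real.log y ≤ ∏ p ∈ Nat.primesBelow (y + 1), (1 - 1 / (p : ℝ))⁻¹ := by
    let g : ℕ →* ℝ :=
      { toFun := fun n => (n : ℝ)⁻¹
        map_one' := by simp
        map_mul' := by intro a b; push_cast; rw [mul_inv] }
    have hg : ∀ n : ℕ, g n = (n : ℝ)⁻¹ := fun n => rfl
    have h1 := (EulerProduct.summable_and_hasSum_smoothNumbers_prod_primesBelow_geometric (f := g)
      (by
        intro p hp
        rw [hg, norm_inv, Real.norm_natCast]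
        have h2 : (2 : ℝ) ≤ p := by exact_mod_cast hp.two_le
        have : ((p : ℝ))⁻¹ ≤ (2 : ℝ)⁻¹ := by gcongr
        linarith [this, (by norm_num : (2 : ℝ)⁻¹ < 1)]) (y + 1)).2
    have h2 : HasSum ((Nat.smoothNumbers (y + 1)).indicator (fun n => g n))
        (∏ p ∈ Nat.primesBelow (y + 1), (1 - g p)⁻¹) :=
      hasSum_subtype_iff_indicator.1 h1
    have h3 := sum_le_hasSum (Finset.Icc 1 y) (fun i _ => by
      apply Set.indicator_nonneg
      intro n _
      rw [hg]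
      positivity) h2
    have h4 : ∑ n ∈ Finset.Icc 1 y, (Nat.smoothNumbers (y + 1)).indicator (fun n => g n) n =
        ((harmonic y : ℚ) : ℝ) := by
      rw [harmonic_eq_sum_Icc]
      push_cast
      refine Finset.sum_congr rfl fun n hn => ?_
      rw [Finset.mem_Icc] at hn
      rw [Set.indicator_of_mem (Nat.mem_smoothNumbers_of_lt (by omega) (by omega)), hg]
    rw [h4] at h3
    have h5 := log_add_one_le_harmonic y
    have h6 : Real.log y ≤ Real.log (y + 1 : ℕ) := by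
      apply Real.log_le_log (by exact_mod_cast (by omega : 0 < y))
      push_cast
      linarith
    calc Real.log y ≤ _ := h6
      _ ≤ _ := h5
      _ ≤ _ := h3
      _ = _ := by simp only [hg, one_div]
  have hprod : 0 < ∏ p ∈ Nat.primesBelow (y + 1), (1 - 1 / (p : ℝ)) := Finset.prod_pos hpos
  rw [Finset.prod_inv_distrib] at hharm
  rw [le_div_iff₀ hlog]
  calc (∏ p ∈ Nat.primesBelow (y + 1), (1 - 1 / (p : ℝ))) * Real.log y ≤
      (∏ p ∈ Nat.primesBelow (y + 1), (1 - 1 / (p : ℝ))) *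
        (∏ p ∈ Nat.primesBelow (y + 1), (1 - 1 / (p : ℝ)))⁻¹ := by gcongr
    _ = 1 := mul_inv_cancel₀ hprod.ne'

open Filter in
theorem large (δ : ℝ) (hδ : 0 < δ) : ∃ X₁ : ℕ, ∀ X : ℕ, X₁ ≤ X →
    (X : ℝ) / (2 * Real.log X) ≤ (Nat.primeCounting X : ℝ) ∧
      Real.sqrt X ≤ δ / 2 * (Nat.primeCounting X : ℝ) := by
  have h1 : ∀ᶠ x : ℝ in atTop, Real.log x ≤ (1 / 20) * x := by
    have := Real.isLittleO_log_id_atTop.bound (show (0 : ℝ) < 1 / 20 by norm_num)
    filter_upwards [this, eventually_ge_atTop 1] with x hx hx1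
    simp only [id] at hx
    rw [Real.norm_of_nonneg (Real.log_nonneg hx1), Real.norm_of_nonneg (by linarith)] at hx
    exact hx
  have h2 : ∀ᶠ x : ℝ in atTop, 4 / δ * Real.log x ≤ Real.sqrt x := by
    have := (isLittleO_log_rpow_atTop (show (0 : ℝ) < 1 / 2 by norm_num)).bound
      (show (0 : ℝ) < δ / 4 by positivity)
    filter_upwards [this, eventually_ge_atTop 1] with x hx hx1
    rw [Real.norm_of_nonneg (Real.log_nonneg hx1), Real.norm_of_nonneg (by positivity),
      ← Real.sqrt_eq_rpow] at hx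
    calc 4 / δ * Real.log x ≤ 4 / δ * (δ / 4 * Real.sqrt x) := by gcongr
      _ = _ := by field_simp
  have h3 : ∀ᶠ X : ℕ in atTop, Real.log ((X : ℝ) + 1) ≤ (1 / 20) * ((X : ℝ) + 1) :=
    (tendsto_atTop_add_const_right _ 1 tendsto_natCast_atTop_atTop).eventually h1
  have h4 : ∀ᶠ X : ℕ in atTop, 4 / δ * Real.log (X : ℝ) ≤ Real.sqrt (X : ℝ) :=
    tendsto_natCast_atTop_atTop.eventually h2
  have h5 : ∀ᶠ X : ℕ in atTop, (X : ℝ) / (2 * Real.log X) ≤ (Nat.primeCounting X : ℝ) ∧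
      Real.sqrt X ≤ δ / 2 * (Nat.primeCounting X : ℝ) := by
    filter_upwards [h3, h4, eventually_ge_atTop 10] with X hX3 hX4 hX
    have hX' : (10 : ℝ) ≤ X := by exact_mod_cast hX
    have hlog : 0 < Real.log X := Real.log_pos (by linarith)
    have h6 := Chebyshev.pi_ge X
    have h7 : (X : ℝ) / (2 * Real.log X) ≤ (Nat.primeCounting X : ℝ) := by
      refine le_trans ?_ h6
      rw [div_le_div_iff₀ (by positivity) hlog]
      have h8 : (X : ℝ) / 2 ≤ X * Real.log 2 - Real.log (X + 1) := by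
        have := Real.log_two_gt_d9
        nlinarith
      nlinarith
    refine ⟨h7, ?_⟩
    have h9 : Real.sqrt X * Real.sqrt X = X := Real.mul_self_sqrt (by positivity)
    have h10 : Real.sqrt X ≤ δ / 2 * ((X : ℝ) / (2 * Real.log X)) := by
      rw [← mul_div_assoc, le_div_iff₀ (by positivity)]
      have h11 : 4 / δ * Real.log X * δ = 4 * Real.log X := by field_simp
      have h12 : 4 * Real.log X ≤ Real.sqrt X * δ := by
        rw [← h11]; gcongr
      have h13 : 0 ≤ Real.sqrt X := Real.sqrt_nonneg _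
      nlinarith
    refine h10.trans ?_
    gcongr
  exact Filter.eventually_atTop.1 h5

/-- the primes are a rich set of times -/
theorem rich_primes (k : ℕ) {δ : ℝ} (hδ : 0 < δ) :
    ∃ B X₀ : ℕ, ∀ X : ℕ, X₀ ≤ X →
      Rich (primes X) (δ * (primes X).card) k ⌊Real.log X ^ B⌋₊ := by
  classical
  obtain ⟨B, X₀, h⟩ := Pool.Agent.Y843.HS.fin k 1 (1 / 2) (δ / 16) (by norm_num) (by positivity)
  have hpi : ∀ X : ℕ, (primes X).card = Nat.primeCounting X := by
    intro X
    rw [Nat.primeCounting, Nat.primeCounting', Nat.count_eq_card_filter_range]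
    rfl
  obtain ⟨X₁, hX₁⟩ := large δ hδ
  refine ⟨B, max (max X₀ X₁) 16, fun X hX S hS hc => ?_⟩
  have hX0 : X₀ ≤ X := (le_max_left _ _).trans ((le_max_left _ _).trans hX)
  have hX1 : X₁ ≤ X := (le_max_right _ _).trans ((le_max_left _ _).trans hX)
  have hX16 : 16 ≤ X := (le_max_right _ _).trans hX
  have hX16' : (16 : ℝ) ≤ X := by exact_mod_cast hX16
  obtain ⟨hc1, hc2⟩ := hX₁ X hX1
  rw [hpi] at hc
  set y : ℕ := ⌊(X : ℝ) ^ (1 / 2 : ℝ)⌋₊ with hy
  have hsq : (X : ℝ) ^ (1 / 2 : ℝ) = Real.sqrt X := by rw [Real.sqrt_eq_rpow]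
  have hs4 : 4 ≤ Real.sqrt X := by
    have h1 : Real.sqrt 16 ≤ Real.sqrt X := Real.sqrt_le_sqrt hX16'
    have h2 : Real.sqrt 16 = 4 := by
      rw [show (16 : ℝ) = 4 ^ 2 by norm_num]; exact Real.sqrt_sq (by norm_num)
    linarith
  have hyle : (y : ℝ) ≤ Real.sqrt X := by
    rw [hy, hsq]; exact Nat.floor_le (by positivity)
  have hyge : Real.sqrt X / 2 ≤ y := by
    have := Nat.lt_floor_add_one (Real.sqrt X)
    rw [hy, hsq]
    linarith
  have hy2 : 2 ≤ y := by
    have : (2 : ℝ) ≤ y := by linarith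
    exact_mod_cast this
  have hlogX : 0 < Real.log X := Real.log_pos (by linarith)
  have hlogy : Real.log X / 4 ≤ Real.log y := by
    have h1 : Real.log (Real.sqrt X / 2) ≤ Real.log y := Real.log_le_log (by linarith) hyge
    rw [Real.log_div (by linarith) (by norm_num), Real.log_sqrt (by linarith)] at h1
    have h2 : Real.log 16 ≤ Real.log X := Real.log_le_log (by norm_num) hX16'
    have h3 : Real.log 16 = 4 * Real.log 2 := by
      rw [show (16 : ℝ) = 2 ^ 4 by norm_num, Real.log_pow]; norm_num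
    linarith
  have hVV : VV (fun _ => {0}) 0 y ≤ 4 / Real.log X := by
    refine (VV_le hy2).trans ?_
    rw [div_le_div_iff₀ (by linarith) hlogX]
    linarith
  set S' : Finset ℕ := S.filter (fun t => y < t) with hS'
  have hcard : S.card ≤ S'.card + y := by
    have h1 := Finset.card_filter_add_card_filter_not (s := S) (fun t => y < t)
    have h2 : (S.filter (fun t => ¬ y < t)) ⊆ Finset.Icc 1 y := by
      intro t ht
      obtain ⟨ht1, ht2⟩ := Finset.mem_filter.1 ht
      have := (Finset.mem_filter.1 (hS ht1)).2.pos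
      rw [Finset.mem_Icc]
      omega
    have h3 := Finset.card_le_card h2
    rw [Nat.card_Icc] at h3
    rw [hS']
    omega
  have hcard' : δ / 2 * (Nat.primeCounting X : ℝ) ≤ S'.card := by
    have h1 : (S.card : ℝ) ≤ S'.card + y := by exact_mod_cast hcard
    linarith
  obtain ⟨a, d, h1, h2, h3⟩ := h X 0 hX0 (fun _ => {0})
    (fun p hp _ => by
      refine ⟨by simp, by simpa using hp.one_lt, fun c hc => ?_⟩
      rw [Finset.mem_singleton] at hc
      rw [hc]; exact hp.pos) S'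
    (fun t ht => by
      obtain ⟨ht1, ht2⟩ := Finset.mem_filter.1 ht
      have := Finset.mem_range.1 (Finset.mem_filter.1 (hS ht1)).1
      rw [Finset.mem_Ioc]
      omega)
    (fun t ht p hp hpX => by
      obtain ⟨ht1, ht2⟩ := Finset.mem_filter.1 ht
      have htp := (Finset.mem_filter.1 (hS ht1)).2
      rw [Finset.mem_singleton]
      intro h0
      have hpy : p ≤ y := Nat.le_floor hpX
      have hdvd : p ∣ t := Nat.dvd_of_mod_eq_zero h0
      rcases (Nat.dvd_prime htp).1 hdvd with h4 | h4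
      · exact hp.one_lt.ne' h4
      · omega)
    (by
      refine le_trans ?_ hcard'
      calc δ / 16 * X * VV (fun _ => {0}) 0 y ≤ δ / 16 * X * (4 / Real.log X) := by gcongr
        _ = δ / 2 * ((X : ℝ) / (2 * Real.log X)) := by
          field_simp
          norm_num
        _ ≤ _ := by gcongr)
  exact ⟨a, d, h1, Nat.le_floor h2, fun j hj => (Finset.mem_filter.1 (h3 j hj)).1⟩

end Pool.Agent.Helper66x.ST
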