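import Pool.Agent.Helper66x.AK.RealSets

/-!
# Progressions of differences from many times (helper66, for MP_4b405e_nt)

If every subset of at least `c` elements of a finite set `T` of times contains a `k`-term progression
with difference at most `H`, then sets which contain, for all `r ∈ R`, at least `c` of the points
`a + t r`, `t ∈ T`, satisfy the inequalities of the sets which contain `k`-term progressions up to
the factor `H`.
-/

set_option autoImplicit false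

open Finset

namespace Pool.Agent.Helper66x.ST

open Pool.Agent.Helper66x.AK Pool.Agent.V11295.ProgAny Pool.Agent.W46.KK

/-- every subset of at least `c` elements of `T` contains a `k`-term progression of difference at most
`H` -/
def Rich (T : Finset ℕ) (c : ℝ) (k H : ℕ) : Prop :=
  ∀ S ⊆ T, c ≤ (S.card : ℝ) → ∃ a d : ℕ, 1 ≤ d ∧ d ≤ H ∧ ∀ j < k, a + j * d ∈ S

theorem finite_core {k : ℕ} (hk : 1 ≤ k) {f : ℝ} (hf0 : 0 < f)
    (hf : ∀ M : ℕ, 2 ≤ M → ∀ Δ : Finset ℤ, Prog k M Δ → (M : ℝ) ^ f ≤ Δ.card)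
    {T : Finset ℕ} {c : ℝ} {H : ℕ} (hT : Rich T c k H)
    {G : Type} [AddCommGroup G] [IsAddTorsionFree G] (R D : Finset G)
    (h : ∀ r ∈ R, ∃ a : G, ∃ S ⊆ T, c ≤ (S.card : ℝ) ∧ ∀ t ∈ S, a + t • r ∈ D) :
    (R.card : ℝ) ^ f ≤ (H : ℝ) ^ f * D.card := by
  classical
  have hd : ∀ r ∈ R, ∃ d : ℕ, (1 ≤ d ∧ d ≤ H) ∧ ∃ a : G, ∀ j : ℕ, j < k → a + j • (d • r) ∈ D := by
    intro r hr
    obtain ⟨a, S, hS, hc, hD⟩ := h r hr
    obtain ⟨b, d, h1, h2, h3⟩ := hT S hS hc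
    refine ⟨d, ⟨h1, h2⟩, a + b • r, fun j hj => ?_⟩
    have := hD _ (h3 j hj)
    rwa [add_smul, mul_smul, ← add_assoc] at this
  choose! d hd1 hd2 using hd
  have hmap : ∀ r ∈ R, d r ∈ Finset.Icc 1 H := fun r hr => Finset.mem_Icc.2 (hd1 r hr)
  have hsum := Finset.card_eq_sum_card_fiberwise (f := d) (s := R) (t := Finset.Icc 1 H) hmap
  have hfib : ∀ e ∈ Finset.Icc 1 H, ((R.filter (fun r => d r = e)).card : ℝ) ≤
      (D.card : ℝ) ^ (1 / f) := by
    intro e he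
    have he1 := (Finset.mem_Icc.1 he).1
    rcases (R.filter (fun r => d r = e)).eq_empty_or_nonempty with h0 | h0
    · rw [h0]
      simp only [Finset.card_empty, Nat.cast_zero]
      positivity
    have hinj : Function.Injective (fun r : G => e • r) := nsmul_right_injective (by omega)
    have h1 := tensor_group hk hf0.le hf ((R.filter (fun r => d r = e)).image (fun r => e • r)) D
      (h0.image _) (by
        intro r' hr'
        obtain ⟨r, hr, rfl⟩ := Finset.mem_image.1 hr'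
        obtain ⟨hr1, hr2⟩ := Finset.mem_filter.1 hr
        obtain ⟨a, ha⟩ := hd2 r hr1
        rw [hr2] at ha
        exact ⟨a, ha⟩)
    rw [Finset.card_image_of_injective _ hinj] at h1
    have h2 := Real.rpow_le_rpow (by positivity) h1 (by positivity : 0 ≤ 1 / f)
    rwa [← Real.rpow_mul (by positivity), mul_one_div, div_self hf0.ne', Real.rpow_one] at h2
  have hR : (R.card : ℝ) ≤ H * (D.card : ℝ) ^ (1 / f) := by
    rw [hsum]
    push_cast
    calc _ ≤ ∑ _e ∈ Finset.Icc 1 H, (D.card : ℝ) ^ (1 / f) := Finset.sum_le_sum hfib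
      _ = _ := by rw [Finset.sum_const, Nat.card_Icc, nsmul_eq_mul]; simp
  calc (R.card : ℝ) ^ f ≤ (H * (D.card : ℝ) ^ (1 / f)) ^ f :=
        Real.rpow_le_rpow (by positivity) hR hf0.le
    _ = (H : ℝ) ^ f * D.card := by
      rw [Real.mul_rpow (by positivity) (by positivity), ← Real.rpow_mul (by positivity),
        one_div_mul_cancel hf0.ne', Real.rpow_one]

/-- covering numbers of a finite union -/
theorem coverNum_iUnion {n : ℕ} {ι : Type} (I : Finset ι)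
    {A : ι → Set (EuclideanSpace ℝ (Fin n))} (hA : ∀ i ∈ I, Bornology.IsBounded (A i)) {δ : ℝ}
    (hδ : 0 < δ) {R : Set (EuclideanSpace ℝ (Fin n))} (hR : ∀ r ∈ R, ∃ i ∈ I, r ∈ A i) :
    coverNum R δ ≤ ∑ i ∈ I, coverNum (A i) δ := by
  classical
  have h1 : ∀ i : I, ∃ U : Fin (coverNum (A i) δ) → Set (EuclideanSpace ℝ (Fin n)),
      (∀ i, ∀ x ∈ U i, ∀ y ∈ U i, dist x y ≤ δ) ∧ A i ⊆ ⋃ i, U i :=
    fun i => exists_cover (hA i i.2) hδ
  choose U hU1 hU2 using h1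
  let J := Σ i : I, Fin (coverNum (A i) δ)
  have hcard : Fintype.card J = ∑ i ∈ I, coverNum (A i) δ := by
    rw [Fintype.card_sigma]
    simp only [Fintype.card_fin]
    exact Finset.sum_coe_sort I (fun i => coverNum (A i) δ)
  rw [← hcard]
  let e := Fintype.equivFin J
  refine Nat.sInf_le ⟨fun i => U (e.symm i).1 (e.symm i).2, ?_, ?_⟩
  · intro i x hx y hy
    exact hU1 _ _ x hx y hy
  · intro r hr
    obtain ⟨i, hi, hri⟩ := hR r hr
    have h2 := hU2 ⟨i, hi⟩ hri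
    rw [Set.mem_iUnion] at h2
    obtain ⟨l, hl⟩ := h2
    rw [Set.mem_iUnion]
    refine ⟨e ⟨⟨i, hi⟩, l⟩, ?_⟩
    show r ∈ U (e.symm (e ⟨⟨i, hi⟩, l⟩)).1 (e.symm (e ⟨⟨i, hi⟩, l⟩)).2
    rw [e.symm_apply_apply]
    exact hl

/-- the covering number of a set is at most that of its multiple by `d ≥ 1` -/
theorem coverNum_smul {n : ℕ} {A A' : Set (EuclideanSpace ℝ (Fin n))}
    (hA' : Bornology.IsBounded A') {d : ℕ} (hd : 1 ≤ d) {δ : ℝ} (hδ : 0 < δ)
    (h : ∀ r ∈ A, (d : ℝ) • r ∈ A') : coverNum A δ ≤ coverNum A' δ := by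
  obtain ⟨U, hU1, hU2⟩ := exists_cover hA' hδ
  have hd' : (1 : ℝ) ≤ d := by exact_mod_cast hd
  refine Nat.sInf_le ⟨fun i => {x | (d : ℝ) • x ∈ U i}, ?_, ?_⟩
  · intro i x hx y hy
    have h1 := hU1 i _ hx _ hy
    rw [dist_smul₀, Real.norm_of_nonneg (by positivity)] at h1
    have h2 : dist x y ≤ d * dist x y := by
      have := mul_le_mul_of_nonneg_right hd' (dist_nonneg (x := x) (y := y))
      linarith
    linarith
  · intro r hr
    have h1 := hU2 (h r hr)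
    rw [Set.mem_iUnion] at h1 ⊢
    exact h1

theorem real_core {k : ℕ} (hk : 2 ≤ k) {f : ℝ} (hf0 : 0 < f)
    (hf : ∀ M : ℕ, 2 ≤ M → ∀ Δ : Finset ℤ, Prog k M Δ → (M : ℝ) ^ f ≤ Δ.card) (n : ℕ) :
    ∃ C : ℝ, 0 < C ∧ ∀ (T : Finset ℕ) (c : ℝ) (H : ℕ), Rich T c k H →
      ∀ R B : Set (EuclideanSpace ℝ (Fin n)), Bornology.IsBounded B →
      (∀ r ∈ R, ∃ a : EuclideanSpace ℝ (Fin n), ∃ S ⊆ T, c ≤ (S.card : ℝ) ∧
        ∀ t ∈ S, a + (t : ℝ) • r ∈ B) →
      ∀ δ : ℝ, 0 < δ → (coverNum R δ : ℝ) ≤ H * C * (coverNum B δ : ℝ) ^ (1 / f) := by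
  classical
  obtain ⟨C, hC, hmain⟩ := real_sets hk hf0 hf n
  refine ⟨C, hC, ?_⟩
  intro T c H hT R B hB h δ hδ
  set Q : Set (EuclideanSpace ℝ (Fin n)) :=
    {r | ∃ a : EuclideanSpace ℝ (Fin n), ∀ j : ℕ, j < k → a + (j : ℝ) • r ∈ B} with hQ
  have hQb : Bornology.IsBounded Q := by
    refine (hB.sub hB).subset fun r hr => ?_
    obtain ⟨a, ha⟩ := hr
    have h0 := ha 0 (by omega)
    have h1 := ha 1 (by omega)
    refine ⟨_, h1, _, h0, ?_⟩
    simp
  have hQc := hmain Q B hB (fun r hr => hr) δ hδ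
  let A : ℕ → Set (EuclideanSpace ℝ (Fin n)) := fun d => {r | (d : ℝ) • r ∈ Q}
  have hAb : ∀ d ∈ Finset.Icc 1 H, Bornology.IsBounded (A d) := by
    intro d hd
    have hd1 : (1 : ℝ) ≤ d := by exact_mod_cast (Finset.mem_Icc.1 hd).1
    obtain ⟨ρ, hρ⟩ := hQb.exists_norm_le
    refine isBounded_iff_forall_norm_le.2 ⟨ρ, fun r hr => ?_⟩
    have h1 := hρ _ hr
    rw [norm_smul, Real.norm_of_nonneg (by positivity)] at h1
    have h2 := mul_le_mul_of_nonneg_right hd1 (norm_nonneg r)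
    linarith
  have hcov := coverNum_iUnion (Finset.Icc 1 H) hAb hδ (R := R) (by
    intro r hr
    obtain ⟨a, S, hS, hc, hD⟩ := h r hr
    obtain ⟨b, d, h1, h2, h3⟩ := hT S hS hc
    refine ⟨d, Finset.mem_Icc.2 ⟨h1, h2⟩, ?_⟩
    show (d : ℝ) • r ∈ Q
    refine ⟨a + (b : ℝ) • r, fun j hj => ?_⟩
    have := hD _ (h3 j hj)
    push_cast at this
    rwa [add_smul, mul_smul, ← add_assoc] at this)
  have h1 : ∀ d ∈ Finset.Icc 1 H, coverNum (A d) δ ≤ coverNum Q δ := fun d hd =>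
    coverNum_smul hQb (Finset.mem_Icc.1 hd).1 hδ fun r hr => hr
  have h2 : coverNum R δ ≤ H * coverNum Q δ := by
    refine hcov.trans ((Finset.sum_le_sum h1).trans ?_)
    rw [Finset.sum_const, Nat.card_Icc, smul_eq_mul]
    simp
  calc (coverNum R δ : ℝ) ≤ H * coverNum Q δ := by exact_mod_cast h2
    _ ≤ H * (C * (coverNum B δ : ℝ) ^ (1 / f)) := by gcongr
    _ = _ := by ring

end Pool.Agent.Helper66x.ST
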