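import Pool.Agent.Helper66x.ST.Main
import Pool.Agent.TH404.AK.Sdc3

/-!
# Limits and equivalent forms of the conjecture (helper66)
-/

set_option autoImplicit false

open Finset Filter Topology

namespace Pool.Agent.Helper66x.ST

open Pool.Agent.Helper66x.AK Pool.Agent.V11295.ProgAny Pool.Agent.W46.KK

theorem fM_mono {n k l : ℕ} (h : k ≤ l) : fM n k ≤ fM n l := by
  refine le_iInf fun B => le_iInf fun hB => le_iInf fun hP => ?_
  refine iInf_le_of_le B (iInf_le_of_le hB (iInf_le_of_le ?_ le_rfl))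
  intro r hr
  obtain ⟨a, ha⟩ := hP r hr
  exact ⟨a, fun j hj => ha j (by omega)⟩

theorem Expo.le {k l : ℕ} (h : k ≤ l) {f g : ℝ} (hf : Expo k f) (hg : Expo l g) : f ≤ g := by
  have h1 := fM_mono (n := 1) h
  rw [hf.dim 1, hg.dim 1, EReal.coe_le_coe_iff] at h1
  simpa using h1

theorem exists_F : ∃ (f : ℕ → ℝ) (F : ℝ), (∀ k, 2 ≤ k → Expo k (f k)) ∧ (∀ k, 2 ≤ k → f k ≤ F) ∧
    Tendsto f atTop (𝓝 F) ∧ F ≤ 1 ∧ 1 / 1.669587 ≤ F := by
  have h : ∀ k : ℕ, ∃ f : ℝ, 2 ≤ k → Expo k f := by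
    intro k
    by_cases hk : 2 ≤ k
    · obtain ⟨f, hf⟩ := exists_expo hk
      exact ⟨f, fun _ => hf⟩
    · exact ⟨0, fun h => absurd h hk⟩
  choose f hf using h
  have hmono : Monotone (fun k => f (k + 2)) := by
    intro k l hkl
    exact (hf (k + 2) (by omega)).le (by omega) (hf (l + 2) (by omega))
  have hbdd : BddAbove (Set.range (fun k => f (k + 2))) := ⟨1, by
    rintro _ ⟨k, rfl⟩
    exact (hf (k + 2) (by omega)).one⟩
  have ht := tendsto_atTop_ciSup hmono hbdd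
  have hle : ∀ k, 2 ≤ k → f k ≤ ⨆ k, f (k + 2) := by
    intro k hk
    have h1 : f (k - 2 + 2) ≤ ⨆ k, f (k + 2) := le_ciSup hbdd (k - 2)
    rwa [Nat.sub_add_cancel hk] at h1
  refine ⟨f, ⨆ k, f (k + 2), hf, hle, (tendsto_add_atTop_iff_nat 2).1 ht, ?_, ?_⟩
  · exact ciSup_le fun k => (hf (k + 2) (by omega)).one
  · have hsd : Pool.Agent.W46.KK.SD (1669587 / 1000000) := by
      obtain ⟨S, h⟩ := Pool.Agent.TH404.AK.sdc3
      exact ⟨S, h⟩
    have e : (1.669587 : ℝ) = 1669587 / 1000000 := by norm_num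
    rw [e]
    obtain ⟨k₀, _, -, -, h3⟩ := Pool.Agent.V11295.ProgAny.main hsd (by norm_num)
    have h4 := h3 1 (max k₀ 2) (le_max_left _ _)
    have h5 := (hf (max k₀ 2) (le_max_right _ _))
    rw [h5.dim 1, EReal.coe_le_coe_iff] at h4
    refine le_trans ?_ (hle (max k₀ 2) (le_max_right _ _))
    push_cast at h4
    linarith

/-- the infima for rich sets of times converge -/
theorem tendsto_infD {f : ℕ → ℝ} {F : ℝ} (hf : ∀ k, 2 ≤ k → Expo k (f k))
    (hle : ∀ k, 2 ≤ k → f k ≤ F) (ht : Tendsto f atTop (𝓝 F)) (n : ℕ) (T : ℕ → Finset ℕ) (c : ℕ → ℝ)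
    (hT : ∀ i, T i ⊆ range (i + 1)) (hc : ∀ i, c i ≤ (T i).card)
    (hrich : ∀ k : ℕ, 2 ≤ k → ∃ i₀ : ℕ, ∀ i, i₀ ≤ i → ∃ H : ℕ, Rich (T i) (c i) k H) :
    Tendsto (fun i => infD n (T i) (c i)) atTop (𝓝 ((n * F : ℝ) : EReal)) := by
  refine tendsto_order.2 ⟨fun a ha => ?_, fun a ha => ?_⟩
  · have h1 : Tendsto (fun k => ((n * f k : ℝ) : EReal)) atTop (𝓝 ((n * F : ℝ) : EReal)) :=
      (continuous_coe_real_ereal.tendsto _).comp (ht.const_mul _)
    obtain ⟨k, hk1, hk2⟩ := ((h1.eventually (lt_mem_nhds ha)).and (eventually_ge_atTop 2)).exists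
    obtain ⟨i₀, hi₀⟩ := hrich k hk2
    filter_upwards [eventually_ge_atTop i₀] with i hi
    obtain ⟨H, hH⟩ := hi₀ i hi
    exact lt_of_lt_of_le hk1 (infD_ge hk2 (hf k hk2) n hH)
  · filter_upwards [eventually_ge_atTop 1] with i hi
    refine lt_of_le_of_lt ?_ ha
    refine (infD_le n (hT i) (hc i)).trans ?_
    rw [(hf (i + 1) (by omega)).dim n, EReal.coe_le_coe_iff]
    have := hle (i + 1) (by omega)
    gcongr

/-- the conjecture says `F = 1` -/
theorem conj_iff {f : ℕ → ℝ} {F : ℝ} (hf : ∀ k, 2 ≤ k → Expo k (f k))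
    (ht : Tendsto f atTop (𝓝 F)) :
    (∀ n : ℕ, Tendsto (fun k => fM n k) atTop (𝓝 ((n : ℝ) : EReal))) ↔ F = 1 := by
  have h0 : ∀ n : ℕ, Tendsto (fun k => fM n k) atTop (𝓝 ((n * F : ℝ) : EReal)) := by
    intro n
    have h1 : Tendsto (fun k => ((n * f k : ℝ) : EReal)) atTop (𝓝 ((n * F : ℝ) : EReal)) :=
      (continuous_coe_real_ereal.tendsto _).comp (ht.const_mul _)
    refine h1.congr' ?_
    filter_upwards [eventually_ge_atTop 2] with k hk
    rw [(hf k hk).dim n]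
  constructor
  · intro h
    have h1 := tendsto_nhds_unique (h 1) (h0 1)
    rw [EReal.coe_eq_coe_iff] at h1
    push_cast at h1
    linarith
  · intro h n
    have := h0 n
    rwa [h, mul_one] at this

/-- an inequality with the exponent `e` for the sets which contain long progressions -/
theorem le_F {f : ℕ → ℝ} {F : ℝ} (hf : ∀ k, 2 ≤ k → Expo k (f k)) (hle : ∀ k, 2 ≤ k → f k ≤ F)
    {e C : ℝ} {T : Finset ℕ} {c : ℝ} (hc : c ≤ T.card)
    (h : ∀ R D : Finset ℤ, R.Nonempty → ManyG T c R D → (R.card : ℝ) ^ e ≤ C * D.card) :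
    e ≤ F := by
  classical
  obtain ⟨K, hK⟩ : ∃ K : ℕ, T ⊆ range K := ⟨T.sup id + 1, fun t ht => by
    rw [Finset.mem_range]
    have := Finset.le_sup (f := id) ht
    simp only [id] at this
    omega⟩
  set k := max K 2 with hk
  refine le_trans ?_ (hle k (le_max_right _ _))
  by_contra hcon
  push Not at hcon
  obtain ⟨s, hs1, hs2⟩ := exists_between hcon
  have h1 : Tendsto (fun x : ℕ => (x : ℝ) ^ (e - s)) atTop atTop :=
    (tendsto_rpow_atTop (by linarith)).comp tendsto_natCast_atTop_atTop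
  obtain ⟨M₀, hM₀⟩ := Filter.eventually_atTop.1 (h1.eventually (eventually_gt_atTop C))
  obtain ⟨M, hM2, hMM, Δ, hP, hΔ⟩ := (hf k (le_max_right _ _)).sharp s hs1 M₀
  have hMpos : (0 : ℝ) < M := by
    have : 0 < M := by omega
    exact_mod_cast this
  have h2 := hM₀ M hMM
  set R : Finset ℤ := Finset.Ico 0 (M : ℤ) with hR
  have hRc : R.card = M := by rw [hR, Int.card_Ico]; simp
  have h3 := h R Δ ⟨0, by rw [hR, Finset.mem_Ico]; omega⟩ (by
    intro r hr
    rw [hR, Finset.mem_Ico] at hr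
    obtain ⟨a, ha⟩ := hP r hr.1 hr.2
    refine ⟨a, hc.trans ?_⟩
    have h4 : ∀ t ∈ T, a + t • r ∈ Δ := by
      intro t ht
      have h4 := Finset.mem_range.1 (hK ht)
      have h5 := ha t (by omega)
      rwa [nsmul_eq_mul]
    refine le_of_eq ?_
    congr 2
    ext t
    simp only [Finset.mem_filter]
    exact ⟨fun ht => ⟨ht, h4 t ht⟩, fun ht => ht.1⟩)
  rw [hRc] at h3
  have h6 : 0 ≤ C := by
    by_contra hC
    push Not at hC
    have h7 : C * (Δ.card : ℝ) ≤ 0 := mul_nonpos_of_nonpos_of_nonneg hC.le (by positivity)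
    have h8 : 0 < (M : ℝ) ^ e := by positivity
    linarith
  have h7 : (M : ℝ) ^ e ≤ C * (M : ℝ) ^ s := h3.trans (by gcongr)
  have h8 : (M : ℝ) ^ e = (M : ℝ) ^ (e - s) * (M : ℝ) ^ s := by
    rw [← Real.rpow_add hMpos]; congr 1; ring
  rw [h8] at h7
  have h9 : 0 < (M : ℝ) ^ s := by positivity
  have h10 := le_of_mul_le_mul_right h7 h9
  linarith

/-- an exponent larger than `1 - ε` if `F = 1` -/
theorem exists_k {f : ℕ → ℝ} (ht : Tendsto f atTop (𝓝 1)) {ε : ℝ} (hε : 0 < ε) :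
    ∃ k, 2 ≤ k ∧ 1 - ε ≤ f k := by
  obtain ⟨k, h1, h2⟩ := ((ht.eventually (lt_mem_nhds (show 1 - ε < 1 by linarith))).and
    (eventually_ge_atTop 2)).exists
  exact ⟨k, h2, h1.le⟩

end Pool.Agent.Helper66x.ST
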