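import Pool.Agent.Helper66x.ST.Szem
import Pool.Agent.Helper66x.AK.RealW

/-!
# The exponents for rich sets of times (helper66)
-/

set_option autoImplicit false

open Finset Filter Topology

namespace Pool.Agent.Helper66x.ST

open Pool.Agent.Helper66x.AK Pool.Agent.V11295.ProgAny Pool.Agent.W46.KK

/-- the properties of the exponent of the `k`-term progressions -/
structure Expo (k : ℕ) (f : ℝ) : Prop where
  half : 1 / 2 ≤ f
  one : f ≤ 1
  fin : ∀ M : ℕ, 2 ≤ M → ∀ Δ : Finset ℤ, Prog k M Δ → (M : ℝ) ^ f ≤ Δ.card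
  sharp : ∀ s : ℝ, f < s → ∀ M₀ : ℕ, ∃ M : ℕ, 2 ≤ M ∧ M₀ ≤ M ∧ ∃ Δ : Finset ℤ, Prog k M Δ ∧
    (Δ.card : ℝ) ≤ (M : ℝ) ^ s
  dim : ∀ n : ℕ, fM n k = ((n * f : ℝ) : EReal)

theorem exists_expo {k : ℕ} (hk : 2 ≤ k) : ∃ f : ℝ, Expo k f := by
  obtain ⟨f, h1, h2, -, h4, h5⟩ := exponent hk
  exact ⟨f, h1, h2, h4, h5, fun n => (infima hk (by linarith) h4 h5 n).2.1⟩

open Classical in
/-- for every `r ∈ R` at least `c` of the points `a + t r`, `t ∈ T`, are in `D`, for some `a` -/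
def ManyG {G : Type} [AddCommGroup G] (T : Finset ℕ) (c : ℝ) (R D : Finset G) : Prop :=
  ∀ r ∈ R, ∃ a : G, c ≤ ((T.filter (fun t : ℕ => a + t • r ∈ D)).card : ℝ)

open Classical in
/-- the same for sets of vectors -/
def Many {n : ℕ} (T : Finset ℕ) (c : ℝ) (R B : Set (EuclideanSpace ℝ (Fin n))) : Prop :=
  ∀ r ∈ R, ∃ a : EuclideanSpace ℝ (Fin n),
    c ≤ ((T.filter (fun t : ℕ => a + (t : ℝ) • r ∈ B)).card : ℝ)

/-- the infimum of the dimensions -/
noncomputable def infD (n : ℕ) (T : Finset ℕ) (c : ℝ) : EReal :=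
  ⨅ (B : Set (EuclideanSpace ℝ (Fin n))) (_ : Bornology.IsBounded B) (_ : Many T c (cube n) B),
    upperMinkowski B

theorem rpow_le_self {f x L : ℝ} (hf0 : 0 < f) (hf1 : f ≤ 1) {H : ℕ} (hH : (H : ℝ) ≤ L)
    (hx : x ≤ (H : ℝ) ^ f) : x ≤ L := by
  refine hx.trans (le_trans ?_ hH)
  rcases Nat.eq_zero_or_pos H with h | h
  · rw [h, Nat.cast_zero, Real.zero_rpow hf0.ne']
  · have h1 : (1 : ℝ) ≤ H := by exact_mod_cast h
    calc (H : ℝ) ^ f ≤ (H : ℝ) ^ (1 : ℝ) := Real.rpow_le_rpow_of_exponent_le h1 hf1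
      _ = H := Real.rpow_one _

theorem group_bound {k : ℕ} (hk : 2 ≤ k) {f : ℝ} (hf : Expo k f) {T : Finset ℕ} {c L : ℝ} {H : ℕ}
    (hT : Rich T c k H) (hL : (H : ℝ) ≤ L) {G : Type} [AddCommGroup G] [IsAddTorsionFree G]
    (R D : Finset G) (h : ManyG T c R D) : (R.card : ℝ) ^ f ≤ L * D.card := by
  classical
  have hf0 : 0 < f := by linarith [hf.half]
  have h1 := finite_core (by omega : 1 ≤ k) hf0 hf.fin hT R D (fun r hr => by
    obtain ⟨a, ha⟩ := h r hr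
    refine ⟨a, _, Finset.filter_subset _ _, ha, fun t ht => (Finset.mem_filter.1 ht).2⟩)
  refine h1.trans ?_
  have := rpow_le_self hf0 hf.one hL le_rfl
  gcongr

theorem real_bound {k : ℕ} (hk : 2 ≤ k) {f : ℝ} (hf : Expo k f) (n : ℕ) :
    ∃ C : ℝ, 0 < C ∧ ∀ (T : Finset ℕ) (c L : ℝ) (H : ℕ), Rich T c k H → (H : ℝ) ≤ L →
      ∀ R B : Set (EuclideanSpace ℝ (Fin n)), Bornology.IsBounded B → Many T c R B →
      ∀ δ : ℝ, 0 < δ → (coverNum R δ : ℝ) ^ f ≤ C * L * coverNum B δ := by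
  classical
  have hf0 : 0 < f := by linarith [hf.half]
  obtain ⟨C, hC, hmain⟩ := real_core hk hf0 hf.fin n
  refine ⟨C ^ f, by positivity, ?_⟩
  intro T c L H hT hL R B hB h δ hδ
  have h1 := hmain T c H hT R B hB (fun r hr => by
    obtain ⟨a, ha⟩ := h r hr
    exact ⟨a, _, Finset.filter_subset _ _, ha, fun t ht => (Finset.mem_filter.1 ht).2⟩) δ hδ
  have h2 : (coverNum R δ : ℝ) ^ f ≤ (H * C * (coverNum B δ : ℝ) ^ (1 / f)) ^ f :=
    Real.rpow_le_rpow (by positivity) h1 hf0.le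
  refine h2.trans ?_
  rw [Real.mul_rpow (by positivity) (by positivity), ← Real.rpow_mul (by positivity),
    one_div_mul_cancel hf0.ne', Real.rpow_one, Real.mul_rpow (by positivity) (by positivity)]
  have h3 := rpow_le_self hf0 hf.one hL le_rfl
  have h4 : (H : ℝ) ^ f * C ^ f ≤ C ^ f * L := by
    rw [mul_comm]; gcongr
  gcongr

/-- the dimensions, for arbitrary sets of differences -/
theorem dim_bound {k : ℕ} (hk : 2 ≤ k) {f : ℝ} (hf : Expo k f) {n : ℕ} {T : Finset ℕ} {c : ℝ} {H : ℕ}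
    (hT : Rich T c k H) (R B : Set (EuclideanSpace ℝ (Fin n))) (hB : Bornology.IsBounded B)
    (h : Many T c R B) (s : ℝ) :
    ((s : EReal) ≤ upperMinkowski R → ((f * s : ℝ) : EReal) ≤ upperMinkowski B) ∧
    ((s : EReal) ≤ Pool.Agent.V11295.ProgAny.lowerMinkowski R → ((f * s : ℝ) : EReal) ≤ Pool.Agent.V11295.ProgAny.lowerMinkowski B) := by
  classical
  have hf0 : 0 < f := by linarith [hf.half]
  obtain ⟨C, hC, hmain⟩ := real_core hk hf0 hf.fin n
  have h1 : ∀ δ : ℝ, 0 < δ → (coverNum R δ : ℝ) ≤ (H + 1) * C * (coverNum B δ : ℝ) ^ (1 / f) := by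
    intro δ hδ
    refine (hmain T c H hT R B hB (fun r hr => by
      obtain ⟨a, ha⟩ := h r hr
      exact ⟨a, _, Finset.filter_subset _ _, ha, fun t ht => (Finset.mem_filter.1 ht).2⟩) δ hδ).trans ?_
    gcongr
    linarith
  have e : s / (1 / f) = f * s := by field_simp
  rw [← e]
  exact ⟨upper_of (by positivity) (by positivity) h1 s, lower_of (by positivity) (by positivity) h1 s⟩

theorem lower_le_upper {n : ℕ} (B : Set (EuclideanSpace ℝ (Fin n))) :
    Pool.Agent.V11295.ProgAny.lowerMinkowski B ≤ upperMinkowski B := by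
  unfold Pool.Agent.V11295.ProgAny.lowerMinkowski upperMinkowski
  exact liminf_le_limsup (by isBoundedDefault) (by isBoundedDefault)

theorem infD_ge {k : ℕ} (hk : 2 ≤ k) {f : ℝ} (hf : Expo k f) (n : ℕ) {T : Finset ℕ} {c : ℝ} {H : ℕ}
    (hT : Rich T c k H) : ((n * f : ℝ) : EReal) ≤ infD n T c := by
  refine le_iInf fun B => le_iInf fun hB => le_iInf fun hP => ?_
  have h := (dim_bound hk hf hT (cube n) B hB hP n).2 (cube_dim n)
  rw [mul_comm]
  exact h.trans (lower_le_upper B)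

theorem infD_le (n : ℕ) {K : ℕ} {T : Finset ℕ} (hT : T ⊆ range K) {c : ℝ} (hc : c ≤ T.card) :
    infD n T c ≤ fM n K := by
  classical
  refine le_iInf fun B => le_iInf fun hB => le_iInf fun hP => ?_
  refine iInf_le_of_le B (iInf_le_of_le hB (iInf_le_of_le ?_ le_rfl))
  intro r hr
  obtain ⟨a, ha⟩ := hP r hr
  refine ⟨a, hc.trans ?_⟩
  rw [Finset.filter_true_of_mem (fun t ht => ha t (Finset.mem_range.1 (hT ht)))]

end Pool.Agent.Helper66x.ST
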